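import Pool.Agent.H.MP_7279d0.A

set_option autoImplicit false

open Set Filter Topology Pool.Agent.H.MP_7279d0

namespace Pool.Agent.Results.MP_80df55_gt.No

theorem result (p : W) (f : W ≃ₜ W) (Φ : C(W, W) ≃ₜ C(W, W)) :
    Φ (ContinuousMap.const W p) ≠ (f : C(W, W)) := fun h => by
  obtain ⟨U, u1, u2, u3⟩ := mem_nhds_iff.1 (isol (p := p) (Φ.continuous.comp
    ContinuousMap.continuous_const') (by rw [Function.comp_apply, h]; exact f.injective))
  obtain ⟨x, x1, x2⟩ := two' u2 u3 p
  exact x2 (DFunLike.congr_fun (Φ.injective (u1 x1)) p)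

end Pool.Agent.Results.MP_80df55_gt.No
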